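import Pool.Agent.W745.RW.Stm

/-! RW-X: the exact cross relation. -/

set_option autoImplicit false
open MeasureTheory Filter Topology Complex
open scoped ContDiff

namespace Pool.Agent.W686.RW.X

open Pool.Agent.W745.RW

noncomputable section

/-- the general bilinear expression -/
def EE (w : ℤ → ℂ → ℂ) (α β : ℂ) (a b : ℤ) (z : ℂ) : ℂ :=
  α * (w a z * w (b + 1) z - w (a + 1) z * w b z) +
    β * (w a z * w (b - 1) z - w (a - 1) z * w b z)

theorem smooth {B : Set ℂ} {w : ℤ → ℂ → ℂ} (hs : ∀ k, ContDiffOn ℝ ∞ (w k) B) (α β : ℂ)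
    (a b : ℤ) : ContDiffOn ℝ ∞ (EE w α β a b) B := by
  unfold EE
  exact (contDiffOn_const.mul (((hs a).mul (hs (b + 1))).sub ((hs (a + 1)).mul (hs b)))).add
    (contDiffOn_const.mul (((hs a).mul (hs (b - 1))).sub ((hs (a - 1)).mul (hs b))))

theorem fd {w : ℤ → ℂ → ℂ} {z : ℂ} (hd : ∀ k, DifferentiableAt ℝ (w k) z) (α β : ℂ)
    (a b : ℤ) (v : ℂ) : fderiv ℝ (EE w α β a b) z v =
      α * ((w a z * fderiv ℝ (w (b + 1)) z v + w (b + 1) z * fderiv ℝ (w a) z v) -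
        (w (a + 1) z * fderiv ℝ (w b) z v + w b z * fderiv ℝ (w (a + 1)) z v)) +
      β * ((w a z * fderiv ℝ (w (b - 1)) z v + w (b - 1) z * fderiv ℝ (w a) z v) -
        (w (a - 1) z * fderiv ℝ (w b) z v + w b z * fderiv ℝ (w (a - 1)) z v)) := by
  have h : HasFDerivAt (EE w α β a b) _ z :=
    (((((hd a).hasFDerivAt.mul (hd (b + 1)).hasFDerivAt).sub
      ((hd (a + 1)).hasFDerivAt.mul (hd b).hasFDerivAt)).const_mul α).add
    ((((hd a).hasFDerivAt.mul (hd (b - 1)).hasFDerivAt).sub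
      ((hd (a - 1)).hasFDerivAt.mul (hd b).hasFDerivAt)).const_mul β))
  rw [h.fderiv]
  simp

theorem diverg {w : ℤ → ℂ → ℂ} {z : ℂ} {h : ℝ} (hh : 0 < h)
    (hd : ∀ k, DifferentiableAt ℝ (w k) z)
    (hp : ∀ k, Dp h (w k) z = w (k + 1) z) (hm : ∀ k, Dm h (w k) z = - w (k - 1) z) (a b : ℤ) :
    dx (EE w (1 / 2) (-1 / 2) a b) z + dy (EE w (I / 2) (I / 2) a b) z = 0 := by
  have hx : ∀ k, (h : ℂ) * fderiv ℝ (w k) z 1 = (w (k + 1) z - w (k - 1) z) / 2 := by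
    intro k
    have h1 := hp k
    have h2 := hm k
    unfold Dp dx dy at h1
    unfold Dm dx dy at h2
    linear_combination (1 / 2) * h1 + (1 / 2) * h2
  have hy : ∀ k, (h : ℂ) * fderiv ℝ (w k) z I = I * (w (k + 1) z + w (k - 1) z) / 2 := by
    intro k
    have h1 := hp k
    have h2 := hm k
    unfold Dp dx dy at h1
    unfold Dm dx dy at h2
    linear_combination (I / 2) * h1 - (I / 2) * h2 + (h : ℂ) * (fderiv ℝ (w k) z I) * I_sq
  have hne : (h : ℂ) ≠ 0 := by exact_mod_cast hh.ne'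
  apply mul_left_cancel₀ hne
  rw [mul_zero]
  unfold dx dy
  rw [fd hd, fd hd]
  have x1 := hx (b + 1)
  have x2 := hx a
  have x3 := hx b
  have x4 := hx (a + 1)
  have x5 := hx (b - 1)
  have x6 := hx (a - 1)
  have y1 := hy (b + 1)
  have y2 := hy a
  have y3 := hy b
  have y4 := hy (a + 1)
  have y5 := hy (b - 1)
  have y6 := hy (a - 1)
  rw [add_sub_cancel_right] at x1 x4 y1 y4
  rw [sub_add_cancel] at x5 x6 y5 y6
  linear_combination (1 / 2) * w a z * x1 + (1 / 2) * w (b + 1) z * x2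
    - (1 / 2) * w (a + 1) z * x3 - (1 / 2) * w b z * x4
    - (1 / 2) * w a z * x5 - (1 / 2) * w (b - 1) z * x2 + (1 / 2) * w (a - 1) z * x3
    + (1 / 2) * w b z * x6
    + (I / 2) * w a z * y1 + (I / 2) * w (b + 1) z * y2
    - (I / 2) * w (a + 1) z * y3 - (I / 2) * w b z * y4
    + (I / 2) * w a z * y5 + (I / 2) * w (b - 1) z * y2 - (I / 2) * w (a - 1) z * y3
    - (I / 2) * w b z * y6
    + ((w a z * w (b + 1 + 1) z + w a z * w (b - 1 - 1) z - w b z * w (a + 1 + 1) z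
      - w b z * w (a - 1 - 1) z) / 4) * I_sq

theorem pt (w : ℤ → ℂ → ℂ) (α β : ℂ) (hα : ‖α‖ ≤ 1 / 2) (hβ : ‖β‖ ≤ 1 / 2) (a b : ℤ) (z : ℂ) :
    ‖EE w α β a b z‖ ^ 2 ≤ ‖w a z‖ ^ 4 + ‖w b z‖ ^ 4 + ‖w (a + 1) z‖ ^ 4 + ‖w (a - 1) z‖ ^ 4 +
      ‖w (b + 1) z‖ ^ 4 + ‖w (b - 1) z‖ ^ 4 := by
  have h1 : ‖EE w α β a b z‖ ≤ (1 / 2) * (‖w a z‖ * ‖w (b + 1) z‖ + ‖w (a + 1) z‖ * ‖w b z‖) +
      (1 / 2) * (‖w a z‖ * ‖w (b - 1) z‖ + ‖w (a - 1) z‖ * ‖w b z‖) := by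
    unfold EE
    refine (norm_add_le _ _).trans (add_le_add ?_ ?_)
    · rw [norm_mul]
      refine mul_le_mul hα ?_ (norm_nonneg _) (by norm_num)
      refine (norm_sub_le _ _).trans ?_
      rw [norm_mul, norm_mul]
    · rw [norm_mul]
      refine mul_le_mul hβ ?_ (norm_nonneg _) (by norm_num)
      refine (norm_sub_le _ _).trans ?_
      rw [norm_mul, norm_mul]
  have h2 := pow_le_pow_left₀ (norm_nonneg _) h1 2
  refine h2.trans ?_
  generalize ‖w a z‖ = A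
  generalize ‖w b z‖ = B
  generalize ‖w (a + 1) z‖ = A1
  generalize ‖w (a - 1) z‖ = A2
  generalize ‖w (b + 1) z‖ = B1
  generalize ‖w (b - 1) z‖ = B2
  nlinarith [sq_nonneg (A * B1 - A1 * B), sq_nonneg (A * B1 - A * B2), sq_nonneg (A * B1 - A2 * B),
    sq_nonneg (A1 * B - A * B2), sq_nonneg (A1 * B - A2 * B), sq_nonneg (A * B2 - A2 * B),
    sq_nonneg (A ^ 2 - B1 ^ 2), sq_nonneg (A1 ^ 2 - B ^ 2), sq_nonneg (A ^ 2 - B2 ^ 2),
    sq_nonneg (A2 ^ 2 - B ^ 2), sq_nonneg (A1 ^ 2), sq_nonneg (A2 ^ 2), sq_nonneg (B1 ^ 2),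
    sq_nonneg (B2 ^ 2)]

theorem int_phi {B : Set ℂ} {φ : ℂ → ℝ} (hφ : TF B φ) {f : ℂ → ℂ} (hf : ContinuousOn f B) :
    Integrable (fun z => (φ z : ℂ) * f z) := by
  obtain ⟨h1, h2, h3⟩ := hφ
  have hsup : Function.support (fun z => (φ z : ℂ) * f z) ⊆ tsupport φ := by
    intro z hz
    apply subset_tsupport
    intro h0
    apply hz
    simp [h0]
  rw [← integrableOn_iff_integrable_of_support_subset hsup]
  apply ContinuousOn.integrableOn_compact h2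
  exact ((continuous_ofReal.comp h1.continuous).continuousOn).mul (hf.mono h3)

theorem weak (hW : SW) (h2 : S2) {B : Set ℂ} (hB : IsOpen B) {h : ℕ → ℝ} {u : ℕ → ℂ → ℝ}
    (hsys : Sys B h u) (hbd : Bd B h u) {ψ : ℂ → ℝ} (hψ : TF B ψ) (α β : ℂ) (a b : ℤ) :
    Tendsto (fun n => ∫ z, (ψ z : ℂ) * EE (W (h n) (u n)) α β a b z) atTop
      (𝓝 ((α * (CC a (b + 1) - CC (a + 1) b) + β * (CC a (b - 1) - CC (a - 1) b)) *
        (∫ z, ψ z : ℝ))) := by
  have t1 := h2 B hB h u hsys hbd ψ hψ a (b + 1)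
  have t2 := h2 B hB h u hsys hbd ψ hψ (a + 1) b
  have t3 := h2 B hB h u hsys hbd ψ hψ a (b - 1)
  have t4 := h2 B hB h u hsys hbd ψ hψ (a - 1) b
  have t := ((t1.sub t2).const_mul α).add ((t3.sub t4).const_mul β)
  have hs : ∀ n k, ContinuousOn (W (h n) (u n) k) B := fun n k =>
    ((hW B hB (h n) (u n) (hsys.sol n)).1 k).continuousOn
  have e1 : (fun n => ∫ z, (ψ z : ℂ) * EE (W (h n) (u n)) α β a b z) = fun n =>
      α * ((∫ z, (ψ z : ℂ) * (W (h n) (u n) a z * W (h n) (u n) (b + 1) z)) -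
        ∫ z, (ψ z : ℂ) * (W (h n) (u n) (a + 1) z * W (h n) (u n) b z)) +
      β * ((∫ z, (ψ z : ℂ) * (W (h n) (u n) a z * W (h n) (u n) (b - 1) z)) -
        ∫ z, (ψ z : ℂ) * (W (h n) (u n) (a - 1) z * W (h n) (u n) b z)) := by
    funext n
    have i1 := int_phi hψ ((hs n a).mul (hs n (b + 1)))
    have i2 := int_phi hψ ((hs n (a + 1)).mul (hs n b))
    have i3 := int_phi hψ ((hs n a).mul (hs n (b - 1)))
    have i4 := int_phi hψ ((hs n (a - 1)).mul (hs n b))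
    have j1 := integral_sub i1 i2
    have j2 := integral_sub i3 i4
    have k1 := (i1.sub i2).const_mul α
    have k2 := (i3.sub i4).const_mul β
    have j3 := integral_add k1 k2
    simp only [Pi.mul_apply, Pi.sub_apply] at j1 j2 j3
    rw [← j1, ← j2, ← integral_const_mul, ← integral_const_mul, ← j3]
    congr 1
    funext z
    unfold EE
    ring
  rw [e1]
  convert t using 2
  ring

theorem bound {B : Set ℂ} (hB : IsOpen B) (hW : SW) {h : ℕ → ℝ} {u : ℕ → ℂ → ℝ}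
    (hsys : Sys B h u) (hbd : Bd B h u) (α1 β1 α2 β2 : ℂ) (h1 : ‖α1‖ ≤ 1 / 2) (h2 : ‖β1‖ ≤ 1 / 2)
    (h3 : ‖α2‖ ≤ 1 / 2) (h4 : ‖β2‖ ≤ 1 / 2) (a b c d : ℤ) (K : Set ℂ) (hK : IsCompact K)
    (hKB : K ⊆ B) : ∃ C : ℝ, ∀ᶠ n in atTop,
      ∫ z in K, (‖EE (W (h n) (u n)) α1 β1 a b z‖ ^ 2 + ‖EE (W (h n) (u n)) α2 β2 a b z‖ ^ 2 +
        ‖EE (W (h n) (u n)) α1 β1 c d z‖ ^ 2 + ‖EE (W (h n) (u n)) α2 β2 c d z‖ ^ 2) ≤ C := by
  choose Cf hCf using fun k => hbd k K hK hKB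
  let idx : Fin 12 → ℤ := ![a, b, a + 1, a - 1, b + 1, b - 1, c, d, c + 1, c - 1, d + 1, d - 1]
  refine ⟨2 * ∑ i, Cf (idx i), ?_⟩
  filter_upwards [eventually_all.2 fun i => hCf (idx i)] with n hn
  have hsm := (hW B hB (h n) (u n) (hsys.sol n)).1
  have hs : ∀ k, ContinuousOn (W (h n) (u n) k) K := fun k => ((hsm k).continuousOn).mono hKB
  have he : ∀ (α β : ℂ) (a b : ℤ), ContinuousOn (EE (W (h n) (u n)) α β a b) K := fun α β a b =>
    ((smooth hsm α β a b).continuousOn).mono hKB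
  have hi : ∀ i : Fin 12, IntegrableOn (fun z => ‖W (h n) (u n) (idx i) z‖ ^ 4) K volume := fun i =>
    ContinuousOn.integrableOn_compact hK ((hs (idx i)).norm.pow 4)
  have e1 : ∫ z in K, 2 * ∑ i, ‖W (h n) (u n) (idx i) z‖ ^ 4 =
      2 * ∑ i, ∫ z in K, ‖W (h n) (u n) (idx i) z‖ ^ 4 := by
    rw [integral_const_mul, integral_finset_sum]
    intro i _
    exact hi i
  have e2 : 2 * ∑ i, ∫ z in K, ‖W (h n) (u n) (idx i) z‖ ^ 4 ≤ 2 * ∑ i, Cf (idx i) :=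
    mul_le_mul_of_nonneg_left (Finset.sum_le_sum fun i _ => hn i) (by norm_num)
  refine le_trans ?_ (e1.le.trans e2)
  refine setIntegral_mono_on ?_ ?_ hK.measurableSet ?_
  · apply ContinuousOn.integrableOn_compact hK
    exact ((((he α1 β1 a b).norm.pow 2).add ((he α2 β2 a b).norm.pow 2)).add
      ((he α1 β1 c d).norm.pow 2)).add ((he α2 β2 c d).norm.pow 2)
  · apply ContinuousOn.integrableOn_compact hK
    exact continuousOn_const.mul (continuousOn_finset_sum _ fun i _ => (hs (idx i)).norm.pow 4)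
  · intro z _
    have p1 := pt (W (h n) (u n)) α1 β1 h1 h2 a b z
    have p2 := pt (W (h n) (u n)) α2 β2 h3 h4 a b z
    have p3 := pt (W (h n) (u n)) α1 β1 h1 h2 c d z
    have p4 := pt (W (h n) (u n)) α2 β2 h3 h4 c d z
    have e3 : ∑ i, ‖W (h n) (u n) (idx i) z‖ ^ 4 =
        (‖W (h n) (u n) a z‖ ^ 4 + ‖W (h n) (u n) b z‖ ^ 4 + ‖W (h n) (u n) (a + 1) z‖ ^ 4 +
          ‖W (h n) (u n) (a - 1) z‖ ^ 4 + ‖W (h n) (u n) (b + 1) z‖ ^ 4 +
          ‖W (h n) (u n) (b - 1) z‖ ^ 4) +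
        (‖W (h n) (u n) c z‖ ^ 4 + ‖W (h n) (u n) d z‖ ^ 4 + ‖W (h n) (u n) (c + 1) z‖ ^ 4 +
          ‖W (h n) (u n) (c - 1) z‖ ^ 4 + ‖W (h n) (u n) (d + 1) z‖ ^ 4 +
          ‖W (h n) (u n) (d - 1) z‖ ^ 4) := by
      simp only [Fin.sum_univ_succ, idx]
      simp
      ring
    rw [e3]
    linarith

theorem int8 {g1 g2 g3 g4 g5 g6 g7 g8 : ℂ → ℂ} (i1 : Integrable g1) (i2 : Integrable g2)
    (i3 : Integrable g3) (i4 : Integrable g4) (i5 : Integrable g5) (i6 : Integrable g6)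
    (i7 : Integrable g7) (i8 : Integrable g8) :
    ∫ z, ((g1 z - g2 z - g3 z + g4 z) - (g5 z - g6 z - g7 z + g8 z)) =
      ((∫ z, g1 z) - (∫ z, g2 z) - (∫ z, g3 z) + (∫ z, g4 z)) -
      ((∫ z, g5 z) - (∫ z, g6 z) - (∫ z, g7 z) + (∫ z, g8 z)) := by
  have a1 : Integrable (fun z => g1 z - g2 z) := i1.sub i2
  have a2 : Integrable (fun z => g1 z - g2 z - g3 z) := a1.sub i3
  have a3 : Integrable (fun z => g1 z - g2 z - g3 z + g4 z) := a2.add i4
  have b1 : Integrable (fun z => g5 z - g6 z) := i5.sub i6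
  have b2 : Integrable (fun z => g5 z - g6 z - g7 z) := b1.sub i7
  have b3 : Integrable (fun z => g5 z - g6 z - g7 z + g8 z) := b2.add i8
  rw [integral_sub a3 b3, integral_add a2 i4, integral_sub a1 i3, integral_sub i1 i2,
    integral_add b2 i8, integral_sub b1 i7, integral_sub i5 i6]

theorem main (hW : SW) (h2 : S2) (hDC : SDC) : SX := by
  intro c₀ r h u hsys hbd φ hφ a b c d
  have hB : IsOpen (Metric.ball c₀ r) := Metric.isOpen_ball
  have hsm : ∀ n k, ContDiffOn ℝ ∞ (W (h n) (u n) k) (Metric.ball c₀ r) := fun n =>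
    (hW _ hB (h n) (u n) (hsys.sol n)).1
  have hdiff : ∀ n, ∀ z ∈ Metric.ball c₀ r, ∀ k, DifferentiableAt ℝ (W (h n) (u n) k) z :=
    fun n z hz k => ((hsm n k).contDiffAt (hB.mem_nhds hz)).differentiableAt (by simp)
  have hdiv : ∀ (n : ℕ) (a b : ℤ), ∀ z ∈ Metric.ball c₀ r,
      dx (EE (W (h n) (u n)) (1 / 2) (-1 / 2) a b) z +
      dy (EE (W (h n) (u n)) (I / 2) (I / 2) a b) z = 0 := fun n a b z hz =>
    diverg (hsys.sol n).hpos (hdiff n z hz)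
      (fun k => (hW _ hB (h n) (u n) (hsys.sol n)).2.1 k z hz)
      (fun k => (hW _ hB (h n) (u n) (hsys.sol n)).2.2.1 k z hz) a b
  have hI : ‖(I / 2 : ℂ)‖ ≤ 1 / 2 := by simp
  have hh : ‖(1 / 2 : ℂ)‖ ≤ 1 / 2 := by simp
  have hh' : ‖(-1 / 2 : ℂ)‖ ≤ 1 / 2 := by simp
  have key := hDC c₀ r
    (fun n => EE (W (h n) (u n)) (1 / 2) (-1 / 2) a b)
    (fun n => EE (W (h n) (u n)) (I / 2) (I / 2) a b)
    (fun n => EE (W (h n) (u n)) (1 / 2) (-1 / 2) c d)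
    (fun n => EE (W (h n) (u n)) (I / 2) (I / 2) c d)
    ((1 / 2) * (CC a (b + 1) - CC (a + 1) b) + (-1 / 2) * (CC a (b - 1) - CC (a - 1) b))
    ((I / 2) * (CC a (b + 1) - CC (a + 1) b) + (I / 2) * (CC a (b - 1) - CC (a - 1) b))
    ((1 / 2) * (CC c (d + 1) - CC (c + 1) d) + (-1 / 2) * (CC c (d - 1) - CC (c - 1) d))
    ((I / 2) * (CC c (d + 1) - CC (c + 1) d) + (I / 2) * (CC c (d - 1) - CC (c - 1) d))
    (fun n => ⟨smooth (hsm n) _ _ a b, smooth (hsm n) _ _ a b, smooth (hsm n) _ _ c d,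
      smooth (hsm n) _ _ c d⟩)
    (fun n z hz => ⟨hdiv n a b z hz, hdiv n c d z hz⟩)
    (fun K hK hKB => bound hB hW hsys hbd _ _ _ _ hh hh' hI hI a b c d K hK hKB)
    (fun ψ hψ => ⟨weak hW h2 hB hsys hbd hψ _ _ a b, weak hW h2 hB hsys hbd hψ _ _ a b,
      weak hW h2 hB hsys hbd hψ _ _ c d, weak hW h2 hB hsys hbd hψ _ _ c d⟩) φ hφ
  have key2 := key.const_mul (-2 * I)
  have hcon : ∀ n k, ContinuousOn (W (h n) (u n) k) (Metric.ball c₀ r) := fun n k =>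
    (hsm n k).continuousOn
  have hint : ∀ (n : ℕ) (a b c d : ℤ), Integrable (fun z => (φ z : ℂ) * (W (h n) (u n) a z *
      W (h n) (u n) b z * W (h n) (u n) c z * W (h n) (u n) d z)) := fun n a b c d =>
    int_phi hφ ((((hcon n a).mul (hcon n b)).mul (hcon n c)).mul (hcon n d))
  refine (key2.congr fun n => ?_).trans_eq ?_
  · unfold MM
    rw [← int8 (hint n a (b + 1) c (d - 1)) (hint n a (b + 1) (c - 1) d)
      (hint n (a + 1) b c (d - 1)) (hint n (a + 1) b (c - 1) d)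
      (hint n a (b - 1) c (d + 1)) (hint n a (b - 1) (c + 1) d)
      (hint n (a - 1) b c (d + 1)) (hint n (a - 1) b (c + 1) d), ← integral_const_mul]
    congr 1
    funext z
    unfold EE
    linear_combination (-(φ z : ℂ) *
      ((W (h n) (u n) a z * W (h n) (u n) (b + 1) z - W (h n) (u n) (a + 1) z * W (h n) (u n) b z) *
        (W (h n) (u n) c z * W (h n) (u n) (d - 1) z -
          W (h n) (u n) (c - 1) z * W (h n) (u n) d z) -
      (W (h n) (u n) a z * W (h n) (u n) (b - 1) z - W (h n) (u n) (a - 1) z * W (h n) (u n) b z) *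
        (W (h n) (u n) c z * W (h n) (u n) (d + 1) z -
          W (h n) (u n) (c + 1) z * W (h n) (u n) d z))) * I_sq
  · congr 1
    linear_combination (-((∫ z, φ z : ℝ) : ℂ) *
      ((CC a (b + 1) - CC (a + 1) b) * (CC c (d - 1) - CC (c - 1) d) -
        (CC a (b - 1) - CC (a - 1) b) * (CC c (d + 1) - CC (c + 1) d))) * I_sq

end

end Pool.Agent.W686.RW.X
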